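import Mathlib

namespace Pool.Agent.Results.MP_f79b02_co.Q1

open SimpleGraph

def growAdj {V : Type} (G : SimpleGraph V) (M : G.Subgraph) : Option V → Option V → Prop
  | some a, some b => G.Adj a b ∧ ¬ M.Adj a b
  | none, some b => b ∈ M.verts
  | some a, none => a ∈ M.verts
  | none, none => False

/-- The growth step: delete the edges of `M` and join a new vertex to all their endpoints. -/
def grow {V : Type} (G : SimpleGraph V) (M : G.Subgraph) : SimpleGraph (Option V) where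
  Adj := growAdj G M
  symm := ⟨by
    rintro (_ | a) (_ | b) h
    exacts [h, h, h, ⟨h.1.symm, fun h' => h.2 h'.symm⟩]⟩
  loopless := ⟨by
    rintro (_ | a) h
    exacts [h, h.1.ne rfl]⟩

/-- Builder can guarantee that the graph after exactly `t` rounds contains `K_k`. -/
def Win (k : ℕ) : ℕ → (V : Type) → SimpleGraph V → Prop
  | 0, _, G => ¬ G.CliqueFree k
  | t + 1, V, G => ∃ M : G.Subgraph, M.IsMatching ∧ ∃ G₀ G₁ : SimpleGraph (Option V),
      G₀ ⊔ G₁ = grow G M ∧ Disjoint G₀ G₁ ∧ Win k t _ G₀ ∧ Win k t _ G₁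

/-- auxiliary free game: the new vertex is joined to everything -/
def FW (Φ : (V : Type) → SimpleGraph V → Prop) : ℕ → (V : Type) → SimpleGraph V → Prop
  | 0, V, H => Φ V H
  | t + 1, V, H => ∃ K : Bool → SimpleGraph (Option V),
      (∀ x a b, (K x).Adj (some a) (some b) → H.Adj a b) ∧
      (∀ u v, (K true).Adj u v → ¬ (K false).Adj u v) ∧ ∀ x, FW Φ t _ (K x)

lemma FW_trans {Φ Ψ : (V : Type) → SimpleGraph V → Prop} {s : ℕ}
    (h : ∀ V H, Φ V H → FW Ψ s V H) : ∀ t V H, FW Φ t V H → FW Ψ (s + t) V H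
  | 0, V, H, h' => h V H h'
  | t + 1, _, _, ⟨K, h1, h2, h3⟩ => ⟨K, h1, h2, fun x => FW_trans h t _ _ (h3 x)⟩

def Cl (I : Type) (j : ℕ) (V : Type) (H : SimpleGraph V) : Prop :=
  ∃ φ : I × Fin j → V, Function.Injective φ ∧ ∀ i a b, a ≠ b → H.Adj (φ (i, a)) (φ (i, b))

lemma fans (n j : ℕ) : ∀ (m s : ℕ) (V : Type) (H : SimpleGraph V), s + m = n →
    ∀ (φ : (Fin n × (Fin m → Bool)) × Fin j → V) (w : Fin n → V), Function.Injective φ →
    (∀ i a b, a ≠ b → H.Adj (φ (i, a)) (φ (i, b))) →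
    (∀ i : Fin n, i.1 < s → (∀ q, w i ≠ φ q) ∧ (∀ b a, H.Adj (w i) (φ ((i, b), a))) ∧
      ∀ i' : Fin n, i'.1 < s → w i = w i' → i = i') →
    FW (Cl (Fin n) (j + 1)) m V H
  | 0, s, V, H, hs, φ, w, h1, h2, h3 => by
    have h4 := fun i : Fin n => h3 i (by omega)
    refine ⟨fun q => Fin.cases (w q.1) (fun a => φ ((q.1, fun _ => true), a)) q.2, ?_, ?_⟩
    · rintro ⟨i, a⟩ ⟨i', a'⟩ h
      induction a using Fin.cases <;> induction a' using Fin.cases <;>
        simp only [Fin.cases_zero, Fin.cases_succ] at h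
      · rw [(h4 i).2.2 i' (by omega) h]
      · exact absurd h ((h4 i).1 _)
      · exact absurd h.symm ((h4 i').1 _)
      · have := h1 h
        simp only [Prod.mk.injEq] at this
        rw [this.1.1, this.2]
    · intro i a b hab
      induction a using Fin.cases <;> induction b using Fin.cases <;>
        simp only [Fin.cases_zero, Fin.cases_succ]
      · exact absurd rfl hab
      · exact (h4 i).2.1 _ _
      · exact ((h4 i).2.1 _ _).symm
      · exact h2 _ _ _ fun e => hab (by rw [e])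
  | m + 1, s, V, H, hs, φ, w, h1, h2, h3 => by
    let T : Option V → Prop := fun u => ∃ q, q.1.2 0 = true ∧ u = some (φ q)
    let C : Option V → Option V → Prop := fun u v =>
      u ≠ v ∧ ∀ a b, u = some a → v = some b → H.Adj a b
    have Cs : ∀ u v, C u v → C v u := fun u v h => ⟨h.1.symm, fun a b e e' => (h.2 b a e' e).symm⟩
    have hT : ∀ q x, q.1.2 0 = x → (T (some (φ q)) ↔ x = true) := by
      rintro q x rfl
      refine ⟨fun ⟨q', e, e'⟩ => ?_, fun h => ⟨q, h, rfl⟩⟩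
      rw [h1 (Option.some.inj e')]; exact e
    refine ⟨fun x => ⟨fun u v => C u v ∧ (T u ∨ T v ↔ x = true),
      ⟨fun u v h => ⟨Cs _ _ h.1, by rw [or_comm]; exact h.2⟩⟩, ⟨fun u h => h.1.1 rfl⟩⟩,
      fun x a b h => h.1.2 a b rfl rfl, fun u v h h' => absurd (h'.2.1 (h.2.2 rfl)) (by simp),
      fun x => ?_⟩
    refine fans n j m (s + 1) _ _ (by omega)
      (fun q => some (φ ((q.1.1, Fin.cons x q.1.2), q.2)))
      (fun i => if i.1 = s then none else some (w i)) ?_ ?_ ?_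
    · rintro ⟨⟨i, b⟩, a⟩ ⟨⟨i', b'⟩, a'⟩ h
      simpa using h1 (Option.some.inj h)
    · intro i a b hab
      have := h2 (i.1, Fin.cons x i.2) a b hab
      refine ⟨⟨by simpa using this.ne, ?_⟩, ?_⟩
      · rintro _ _ ⟨⟩ ⟨⟩; exact this
      · rw [hT _ x rfl, hT _ x rfl, or_self]
    · intro i hi
      by_cases e : i.1 = s
      · simp only [if_pos e]
        refine ⟨fun q => by simp, fun b a => ⟨⟨by simp, by simp⟩, ?_⟩, fun i' _ h => ?_⟩
        · rw [hT _ x rfl]; simp [T]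
        · split_ifs at h with e'
          exact Fin.ext (e.trans e'.symm)
      · simp only [if_neg e]
        obtain ⟨p1, p2, p3⟩ := h3 i (by omega)
        refine ⟨fun q => by simpa using p1 _, fun b a => ⟨⟨by simpa using p1 _, ?_⟩, ?_⟩,
          fun i' _ h => ?_⟩
        · rintro _ _ ⟨⟩ ⟨⟩; exact p2 _ _
        · rw [hT _ x rfl]; simp [T, p1]
        · split_ifs at h with e'
          exact p3 i' (by omega) (Option.some.inj h)

lemma level : ∀ (j : ℕ) (I : Type) [Finite I], ∃ (t : ℕ) (J : Type) (_ : Finite J),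
    ∀ V H, Cl J 1 V H → FW (Cl I (j + 1)) t V H
  | 0, I, _ => ⟨0, I, inferInstance, fun _ _ h => h⟩
  | j + 1, I, _ => by
    obtain ⟨n, ⟨e⟩⟩ := Finite.exists_equiv_fin I
    obtain ⟨t, J, hJ, h⟩ := level j (Fin n × (Fin n → Bool))
    refine ⟨0 + n + t, J, hJ, fun V H hH => FW_trans ?_ t V H (h V H hH)⟩
    rintro V H ⟨φ, h1, h2⟩
    refine FW_trans (s := 0) ?_ n V H (fans n (j + 1) n 0 V H (by omega) φ
      (fun i => φ ((i, fun _ => true), 0)) h1 h2 fun i hi => absurd hi (by omega))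
    rintro V H ⟨φ, h1, h2⟩
    exact ⟨fun q => φ (e q.1, q.2), fun q q' h => by simpa [Prod.ext_iff] using h1 h,
      fun i => h2 (e i)⟩

def P : ℕ → Type
  | 0 => Empty
  | t + 1 => Option (Bool × P t)

instance finP : ∀ t, Finite (P t)
  | 0 => inferInstanceAs (Finite Empty)
  | t + 1 => by have := finP t; exact inferInstanceAs (Finite (Option (Bool × P t)))

lemma Pinj {t : ℕ} {x y : Bool} {i j : P t} :
    @Eq (P (t + 1)) (some (x, i)) (some (y, j)) ↔ x = y ∧ i = j :=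
  ⟨fun h => by cases h; exact ⟨rfl, rfl⟩, by rintro ⟨rfl, rfl⟩; rfl⟩

def Fm {t : ℕ} {V U : Type} (f : V ⊕ V × P (t + 1) → U) (e : P (t + 1) → V) (x : Bool) :
    Option V ⊕ Option V × P t → Option U
  | .inl a => a.map (fun a => f (.inl a))
  | .inr (some a, i) => some (f (.inr (a, some (x, i))))
  | .inr (none, i) => some (f (.inr (e (some (x, i)), none)))

lemma sim (k : ℕ) : ∀ (t : ℕ) (V : Type) (H : SimpleGraph V), FW (Cl Unit k) t V H →
    ∀ (U : Type) (G : SimpleGraph U) (f : V ⊕ V × P t → U) (e : P t → V), Function.Injective f →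
    Function.Injective e → (∀ a b, H.Adj a b → G.Adj (f (.inl a)) (f (.inl b))) →
    (∀ a i, G.Adj (f (.inl a)) (f (.inr (a, i)))) → Win k t U G
  | 0, V, H, ⟨φ, h1, h2⟩, U, G, f, _, hf, _, h3, _ => by
    classical
    have hi : Function.Injective fun a => f (.inl (φ ((), a))) := fun a b h => by
      simpa using h1 (Sum.inl_injective (hf h))
    refine fun hc => hc (Finset.univ.image fun a => f (.inl (φ ((), a)))) ⟨?_, ?_⟩
    · intro u hu v hv huv
      simp only [Finset.coe_image, Finset.coe_univ, Set.image_univ, Set.mem_range] at hu hv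
      obtain ⟨a, rfl⟩ := hu
      obtain ⟨b, rfl⟩ := hv
      exact h3 _ _ (h2 () a b fun e => huv (by rw [e]))
    · rw [Finset.card_image_of_injective _ hi]; simp
  | t + 1, V, H, ⟨K, k1, k2, k3⟩, U, G, f, e, hf, he, h3, h4 => by
    let M : G.Subgraph := ⟨{u | ∃ a, u = f (.inl a) ∨ u = f (.inr (a, none))},
      fun u v => ∃ a, (u = f (.inl a) ∧ v = f (.inr (a, none))) ∨
        (v = f (.inl a) ∧ u = f (.inr (a, none))),
      by rintro u v ⟨a, ⟨rfl, rfl⟩ | ⟨rfl, rfl⟩⟩; exacts [h4 _ _, (h4 _ _).symm],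
      by rintro u v ⟨a, ⟨h, _⟩ | ⟨_, h⟩⟩; exacts [⟨a, Or.inl h⟩, ⟨a, Or.inr h⟩],
      ⟨fun u v ⟨a, h⟩ => ⟨a, h.symm⟩⟩⟩
    have hF : ∀ x y z z', Fm f e x z = Fm f e y z' → z = z' ∧ (z.isLeft = true ∨ x = y) := by
      rintro x y ((_ | a) | ⟨_ | a, i⟩) ((_ | b) | ⟨_ | b, j⟩) h <;>
        simp only [Fm, Pinj, Option.map_none, Option.map_some, Option.some.injEq, hf.eq_iff, he.eq_iff,
          Sum.inl.injEq, Sum.inr.injEq, Prod.mk.injEq, reduceCtorEq, and_false, and_true] at h <;>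
        simp_all
    let E : Bool → Option U → Option U → Prop := fun x u v =>
      (∃ a b, (K x).Adj a b ∧ u = Fm f e x (.inl a) ∧ v = Fm f e x (.inl b)) ∨
        ∃ a i, u = Fm f e x (.inl a) ∧ v = Fm f e x (.inr (a, i))
    have hE : ∀ x u v, E x u v → (grow G M).Adj u v := by
      rintro x _ _ (⟨_ | a, _ | b, h, rfl, rfl⟩ | ⟨_ | a, i, rfl, rfl⟩)
      · exact absurd rfl h.ne
      · exact ⟨b, Or.inl rfl⟩
      · exact ⟨a, Or.inl rfl⟩
      · exact ⟨h3 _ _ (k1 x a b h), by simp [M, hf.eq_iff]⟩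
      · exact ⟨_, Or.inr rfl⟩
      · exact ⟨h4 _ _, by simp [M, hf.eq_iff]⟩
    have hD : ∀ u v, E false u v → ¬ (E true u v ∨ E true v u) := by
      rintro _ _ (⟨a, b, h, rfl, rfl⟩ | ⟨a, i, rfl, rfl⟩)
        ((⟨c, d, h', e1, e2⟩ | ⟨c, j, e1, e2⟩) | (⟨c, d, h', e1, e2⟩ | ⟨c, j, e1, e2⟩)) <;>
        have e3 := hF _ _ _ _ e1 <;> have e4 := hF _ _ _ _ e2 <;>
        simp only [Sum.inl.injEq, reduceCtorEq, false_and, Sum.isLeft_inr, or_self, and_false]
          at e3 e4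
      · exact k2 _ _ h' (e3.1 ▸ e4.1 ▸ h)
      · exact k2 _ _ h' (e3.1 ▸ e4.1 ▸ h.symm)
    let G1 : SimpleGraph (Option U) := ⟨fun u v => E true u v ∨ E true v u,
      ⟨fun u v h => h.symm⟩, ⟨fun u h => (hE _ _ _ (h.elim id id)).ne rfl⟩⟩
    have hle : G1 ≤ grow G M := fun u v h => h.elim (hE _ _ _) fun h => (hE _ _ _ h).symm
    have he' : Function.Injective fun i : P t => some (e (some (false, i))) := fun i j h =>
      (Pinj.1 (he (Option.some.inj h))).2
    refine ⟨M, ?_, grow G M \ G1, G1, sdiff_sup_cancel hle, disjoint_sdiff_self_left, ?_, ?_⟩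
    · rintro _ ⟨a, rfl | rfl⟩
      · exact ⟨f (.inr (a, none)), ⟨a, Or.inl ⟨rfl, rfl⟩⟩, by simp [M, hf.eq_iff]⟩
      · exact ⟨f (.inl a), ⟨a, Or.inr ⟨rfl, rfl⟩⟩, by simp [M, hf.eq_iff]⟩
    · refine sim k t _ _ (k3 false) _ _ (Fm f e false) _ (fun z z' h => (hF _ _ _ _ h).1) he'
        (fun a b h => ?_) fun a i => ?_
      · have : E false _ _ := Or.inl ⟨a, b, h, rfl, rfl⟩
        exact ⟨hE _ _ _ this, hD _ _ this⟩
      · have : E false _ _ := Or.inr ⟨a, i, rfl, rfl⟩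
        exact ⟨hE _ _ _ this, hD _ _ this⟩
    · exact sim k t _ _ (k3 true) _ _ (Fm f e true) _ (fun z z' h => (hF _ _ _ _ h).1) he'
        (fun a b h => Or.inl (Or.inl ⟨a, b, h, rfl, rfl⟩)) fun a i => Or.inl (Or.inr ⟨a, i, rfl, rfl⟩)

theorem result (k : ℕ) : ∃ (V : Type) (_ : Finite V) (G : SimpleGraph V) (t : ℕ),
    G.CliqueFree 3 ∧ Win (k + 1) t V G := by
  obtain ⟨t, J, hJ, h⟩ := level k Unit
  let V := J ⊕ P t
  let R : V ⊕ V × P t → V ⊕ V × P t → Prop := fun u v => ∃ a i, u = .inl a ∧ v = .inr (a, i)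
  refine ⟨V ⊕ V × P t, inferInstance, ⟨fun u v => R u v ∨ R v u, ⟨fun u v h => h.symm⟩,
    ⟨by rintro u (⟨a, i, rfl, h⟩ | ⟨a, i, rfl, h⟩) <;> cases h⟩⟩, t, ?_, ?_⟩
  · classical
    intro s hs
    obtain ⟨a, b, c, h1, h2, h3, _⟩ := is3Clique_iff.1 hs
    rcases h1 with ⟨_, _, rfl, rfl⟩ | ⟨_, _, rfl, rfl⟩ <;>
      rcases h2 with ⟨_, _, h, rfl⟩ | ⟨_, _, rfl, h⟩ <;>
      rcases h3 with ⟨_, _, h', h''⟩ | ⟨_, _, h', h''⟩ <;> simp_all
  · exact sim (k + 1) t V ⊥ (h V ⊥ ⟨fun q => .inl q.1, fun q q' e =>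
      Prod.ext (Sum.inl_injective e) (Subsingleton.elim _ _),
      fun i a b e => absurd (Subsingleton.elim _ _) e⟩) _ _ id .inr Function.injective_id
      Sum.inr_injective (fun a b h => h.elim) fun a i => Or.inl ⟨a, i, rfl, rfl⟩

end Pool.Agent.Results.MP_f79b02_co.Q1
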